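import Pool.Agent.H18.QGR.Stmts

/-! Board qgr (helper18, MP_286349_an), row JCV: the conjugate variables. -/

set_option autoImplicit false

noncomputable section

open Filter
open scoped Topology

namespace Pool.QGR

open Pool.CGR

namespace Jcv

variable {m : ℕ} {A : Type} [CStarAlgebra A]

theorem ev_norm (x : Fin m → A) (ρ : ℝ) (hρ : 1 ≤ ρ) (h : ∀ i, ‖x i‖ ≤ ρ) (h1 : ‖(1 : A)‖ ≤ 1)
    (w : List (Fin m)) : ‖ev x w‖ ≤ ρ ^ w.length := by
  induction w with
  | nil =>
    have h2 : ev x [] = 1 := rfl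
    rw [h2]
    simpa using h1
  | cons a w ih =>
    have h2 : ev x (a :: w) = x a * ev x w := by simp [ev]
    rw [h2, List.length_cons, pow_succ']
    exact (norm_mul_le _ _).trans
      (mul_le_mul (h a) ih (norm_nonneg _) (le_trans zero_le_one hρ))

theorem evP_norm (x : Fin m → A) (ρ : ℝ) (hρ : 1 ≤ ρ) (h : ∀ i, ‖x i‖ ≤ ρ)
    (h1 : ‖(1 : A)‖ ≤ 1) (n : ℕ) (f : E m) (hf : ∀ u, n < u.length → f u = 0) :
    ‖evP x f‖ ≤ l1 f * ρ ^ n := by
  have e1 : evP x f = ∑ u ∈ f.support, f u • ev x u := rfl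
  have e2 : l1 f = ∑ u ∈ f.support, ‖f u‖ := rfl
  rw [e1, e2, Finset.sum_mul]
  refine (norm_sum_le _ _).trans (Finset.sum_le_sum fun u hu => ?_)
  rw [norm_smul]
  refine mul_le_mul_of_nonneg_left ?_ (norm_nonneg _)
  have hl : u.length ≤ n := by
    by_contra hc
    exact (Finsupp.mem_support_iff.1 hu) (hf u (not_le.1 hc))
  exact (ev_norm x ρ hρ h h1 u).trans (pow_le_pow_right₀ hρ hl)

theorem card_wn (n : ℕ) : (wn m n).card ≤ m ^ n := by
  unfold wn
  refine Finset.card_image_le.trans ?_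
  rw [Finset.card_univ, Fintype.card_fun, Fintype.card_fin, Fintype.card_fin]

theorem sum_wds {M : Type} [AddCommMonoid M] (k : ℕ) (g : List (Fin m) → M) :
    ∑ w ∈ wds m k, g w = ∑ n ∈ Finset.range k, ∑ w ∈ wn m n, g w := by
  have h : wds m k = (Finset.range k).biUnion (wn m) := rfl
  rw [h, Finset.sum_biUnion]
  intro a _ b _ hab
  rw [Function.onFun, Finset.disjoint_left]
  intro w hw hw'
  rw [mem_wn] at hw hw'
  exact hab (hw.symm.trans hw')

end Jcv

open Jcv in
theorem jcv_thm (hSMB : SMBStmt) (hWKS : WKSStmt) (hWKN : WKNStmt) (hWKI : WKIStmt)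
    (hORT : ORTStmt) : JCVStmt := by
  intro m q Q hq A _ τ hτ x hL C j hJ
  have hQ1 : 0 < 1 - Q := by linarith [hq.lt]
  have hC0 : 0 ≤ C := le_trans zero_le_one hJ.one_le
  -- the unit
  have hne : Nontrivial A := by
    refine ⟨⟨1, 0, fun h => ?_⟩⟩
    have h2 := hτ.one
    rw [h, map_zero] at h2
    exact zero_ne_one h2
  have h1 : ‖(1 : A)‖ ≤ 1 := le_of_eq CStarRing.norm_one
  obtain ⟨ρ, hρ1, hρ⟩ : ∃ ρ : ℝ, 1 ≤ ρ ∧ ∀ i, ‖x i‖ ≤ ρ := by
    refine ⟨1 + ∑ i, ‖x i‖, ?_, ?_⟩
    · have : 0 ≤ ∑ i, ‖x i‖ := Finset.sum_nonneg fun i _ => norm_nonneg _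
      linarith
    · intro i
      have : ‖x i‖ ≤ ∑ i, ‖x i‖ :=
        Finset.single_le_sum (f := fun i => ‖x i‖) (fun i _ => norm_nonneg _) (Finset.mem_univ i)
      linarith
  have hρ0 : 0 ≤ ρ := le_trans zero_le_one hρ1
  set L : ℝ := 1 + 1 / (1 - Q) with hLdef
  have hL0 : 0 ≤ L := by positivity
  -- norm of the Wick polynomials
  have hW : ∀ w, ‖evP x (Wk q w)‖ ≤ (L * ρ) ^ w.length := by
    intro w
    refine (evP_norm x ρ hρ1 hρ h1 w.length (Wk q w) (fun u hu => hWKS m q w u hu)).trans ?_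
    rw [mul_pow]
    exact mul_le_mul_of_nonneg_right (hWKN m q Q hq w) (pow_nonneg hρ0 _)
  let B : Fin m → ℕ → A := fun i n => ∑ w ∈ wn m n, j i w • evP x (Wk q w)
  have hB : ∀ i n, ‖B i n‖ ≤ (m * C * (L * ρ)) ^ n * Q ^ tr (n / 2) := by
    intro i n
    have h2 : ∀ w ∈ wn m n, ‖j i w • evP x (Wk q w)‖ ≤ C ^ n * Q ^ tr (n / 2) * (L * ρ) ^ n := by
      intro w hw
      have h3 := hJ.bdd i w
      have h4 := hW w
      rw [mem_wn.1 hw] at h3 h4
      rw [norm_smul]
      exact mul_le_mul h3 h4 (norm_nonneg _) (by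
        have := hq.nonneg
        positivity)
    have h5 : ‖B i n‖ ≤ (wn m n).card • (C ^ n * Q ^ tr (n / 2) * (L * ρ) ^ n) :=
      (norm_sum_le _ _).trans (Finset.sum_le_card_nsmul _ _ _ h2)
    refine h5.trans ?_
    rw [nsmul_eq_mul]
    have h6 : ((wn m n).card : ℝ) ≤ (m : ℝ) ^ n := by
      exact_mod_cast card_wn (m := m) n
    have h7 : 0 ≤ C ^ n * Q ^ tr (n / 2) * (L * ρ) ^ n := by
      have := hq.nonneg
      positivity
    calc ((wn m n).card : ℝ) * (C ^ n * Q ^ tr (n / 2) * (L * ρ) ^ n)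
        ≤ (m : ℝ) ^ n * (C ^ n * Q ^ tr (n / 2) * (L * ρ) ^ n) :=
          mul_le_mul_of_nonneg_right h6 h7
      _ = (m * C * (L * ρ)) ^ n * Q ^ tr (n / 2) := by
          rw [mul_pow, mul_pow]
          ring
  have hS : ∀ i, Summable (B i) := fun i =>
    Summable.of_norm_bounded (hSMB Q (m * C * (L * ρ)) hq.nonneg hq.lt (by positivity)) (hB i)
  -- continuity of the functional
  have hcont : Continuous τ := AddMonoidHomClass.continuous_of_bound τ 1 (fun a => by
    rw [one_mul]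
    exact hτ.norm a)
  have hORT' := hORT m q hq.symm A τ hτ.comm x hL
  have key : ∀ i v, τ ((∑' n, B i n) * evP x (Wk q v)) = ci q i (Wk q v) := by
    intro i v
    have h2 : HasSum (fun n => τ (B i n * evP x (Wk q v)))
        (τ ((∑' n, B i n) * evP x (Wk q v))) := by
      have h3 := ((hS i).hasSum).mul_right (evP x (Wk q v))
      exact h3.map τ.toAddMonoidHom hcont
    have h4 : ∀ n, τ (B i n * evP x (Wk q v)) =
        ∑ w ∈ wn m n, j i w * τ (evP x (Wk q w) * evP x (Wk q v)) := by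
      intro n
      show τ ((∑ w ∈ wn m n, j i w • evP x (Wk q w)) * evP x (Wk q v)) = _
      rw [Finset.sum_mul, map_sum]
      refine Finset.sum_congr rfl fun w _ => ?_
      rw [smul_mul_assoc, map_smul, smul_eq_mul]
    have h5 : HasSum (fun n => τ (B i n * evP x (Wk q v)))
        (τ (B i v.length * evP x (Wk q v))) := by
      apply hasSum_single
      intro n hn
      rw [h4]
      refine Finset.sum_eq_zero fun w hw => ?_
      rw [hORT'.1 w v (by rw [mem_wn.1 hw]; exact hn), mul_zero]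
    rw [h2.unique h5, h4, hJ.sol]
  have key2 : ∀ i (f : E m), τ ((∑' n, B i n) * evP x (Xi q f)) = ci q i (Xi q f) := by
    intro i f
    induction f using Finsupp.induction_linear with
    | zero => simp
    | add f g hf hg => rw [map_add, map_add, mul_add, map_add, hf, hg, map_add]
    | single v c =>
      have h2 : Xi q (Finsupp.single v c) = c • Wk q v := by
        simp [Xi]
      rw [h2, map_smul, mul_smul_comm, map_smul, key, map_smul]
  refine ⟨fun i => ∑' n, B i n, ?_, ?_⟩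
  · intro i w
    have h2 := key2 i (Ph q (Finsupp.single w 1))
    rw [hWKI] at h2
    have h3 : evP x (Finsupp.single w 1) = ev x w := by simp [evP]
    have h4 : ci q i (Finsupp.single w 1) = dq (fun u => Fk q u []) i w := by simp [ci]
    have h5 : (fun u => Fk q u []) = fun w => τ (ev x w) := by
      funext u
      exact (hL u).symm
    rw [h3, h4, h5] at h2
    exact h2
  · intro i
    have h2 := ((hS i).hasSum).tendsto_sum_nat
    have h3 : (fun N => evP x (pN q j N i)) = fun N => ∑ n ∈ Finset.range (N + 1), B i n := by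
      funext N
      unfold pN
      rw [map_sum, ← sum_wds]
      refine Finset.sum_congr rfl fun w _ => ?_
      rw [map_smul]
    rw [h3]
    exact h2.comp (tendsto_add_atTop_nat 1)

end Pool.QGR
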